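import Mathlib

/-!
# MP_4101c8_co, Q1 and Q2: the conjectured Nordhaus-Gaddum bounds fail

For every `k ≥ 2` there is a connected graph `G` of order `n = 14 k` with `δ*(G) = 4`,
`γ_t(G) = 2` and `γ_t(Gᶜ) = 6 k = 3 n / 7`, so that the sum is `3 n / 7 + 2 > 2 n / 5 + 2` and the
product is `6 n / 7 > 4 n / 5`.
-/

set_option autoImplicit false

namespace Pool.Agent.Results.MP_4101c8_co.BothBoundsFail

/-- `S` is a total dominating set of `G`: every vertex is adjacent to some vertex of `S`. -/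
def IsTotalDom {V : Type*} (G : SimpleGraph V) (S : Finset V) : Prop :=
  ∀ v, ∃ u ∈ S, G.Adj v u

/-- The total domination number. -/
noncomputable def totalDomNum {V : Type*} (G : SimpleGraph V) : ℕ :=
  sInf {k | ∃ S : Finset V, IsTotalDom G S ∧ S.card = k}

/-- `δ*(G)`, the smaller of the minimum degrees of `G` and of its complement. -/
noncomputable def deltaStar {V : Type*} [Fintype V] (G : SimpleGraph V) : ℕ := by
  classical exact min G.minDegree Gᶜ.minDegree

/-- The vertices of one copy: the points (`false`) and the blocks (`true`). -/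
abbrev X : Type := Bool × Fin 7

/-- The point `p` is in the block `q` (a complement of a line of the Fano plane). -/
def inc (p q : Fin 7) : Prop := q - p = 2 ∨ q - p = 4 ∨ q - p = 5 ∨ q - p = 6

instance (p q : Fin 7) : Decidable (inc p q) := by unfold inc; infer_instance

/-- The point-block incidence graph of the complement of the Fano plane. -/
def xAdj (a b : X) : Prop :=
  (a.1 = false ∧ b.1 = true ∧ inc a.2 b.2) ∨ (a.1 = true ∧ b.1 = false ∧ inc b.2 a.2)

instance (a b : X) : Decidable (xAdj a b) := by unfold xAdj; infer_instance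

theorem xAdj_symm (a b : X) (h : xAdj a b) : xAdj b a := by
  unfold xAdj at *; tauto

theorem xAdj_irrefl (a : X) : ¬ xAdj a a := by
  unfold xAdj; rintro (⟨h1, h2, _⟩ | ⟨h1, h2, _⟩) <;> simp_all

/-- `k` disjoint copies of the incidence graph. -/
def F (k : ℕ) : SimpleGraph (Fin k × X) where
  Adj a b := a.1 = b.1 ∧ xAdj a.2 b.2
  symm := ⟨fun _ _ h => ⟨h.1.symm, xAdj_symm _ _ h.2⟩⟩
  loopless := ⟨fun a h => xAdj_irrefl a.2 h.2⟩

instance (k : ℕ) : DecidableRel (F k).Adj := fun a b => by unfold F; infer_instance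

/-- The counterexample graph. -/
def G (k : ℕ) : SimpleGraph (Fin k × X) := (F k)ᶜ

instance (k : ℕ) : DecidableRel (G k).Adj := fun a b => by unfold G; infer_instance

theorem card_X : Fintype.card X = 14 := by decide

theorem xdeg (x : X) : (Finset.univ.filter (fun y => xAdj x y)).card = 4 := by
  revert x; decide +kernel

theorem F_degree (k : ℕ) (v : Fin k × X) : (F k).degree v = 4 := by
  rw [← SimpleGraph.card_neighborFinset_eq_degree, ← xdeg v.2]
  have : (F k).neighborFinset v
      = (Finset.univ.filter (fun y => xAdj v.2 y)).map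
        ⟨fun y => (v.1, y), fun a b h => by simpa using h⟩ := by
    ext w
    simp only [SimpleGraph.mem_neighborFinset, Finset.mem_map, Finset.mem_filter,
      Finset.mem_univ, true_and, Function.Embedding.coeFn_mk]
    constructor
    · intro h
      exact ⟨w.2, h.2, by rw [h.1]⟩
    · rintro ⟨y, hy, rfl⟩
      exact ⟨rfl, hy⟩
  rw [this, Finset.card_map]

theorem G_degree (k : ℕ) (v : Fin k × X) : (G k).degree v = 14 * k - 5 := by
  have h := SimpleGraph.degree_compl (G := F k) (v := v)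
  unfold G
  rw [h, F_degree, Fintype.card_prod, Fintype.card_fin, card_X]
  omega

theorem minDegree_eq {V : Type*} [Fintype V] [Nonempty V] (H : SimpleGraph V)
    [DecidableRel H.Adj] (d : ℕ) (h : ∀ v, H.degree v = d) : H.minDegree = d := by
  obtain ⟨v, hv⟩ := H.exists_minimal_degree_vertex
  rw [hv, h v]

theorem deltaStar_G (k : ℕ) (hk : 2 ≤ k) : deltaStar (G k) = 4 := by
  have : Nonempty (Fin k × X) := ⟨(⟨0, by omega⟩, (false, 0))⟩
  unfold deltaStar
  have h1 : (G k).minDegree = 14 * k - 5 := minDegree_eq _ _ (G_degree k)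
  have h2 : (F k).minDegree = 4 := minDegree_eq _ _ (F_degree k)
  have h3 : (G k)ᶜ = F k := by unfold G; exact compl_compl _
  have h4 : ∀ inst : DecidableRel (G k).Adj, @SimpleGraph.minDegree _ (G k) _ inst = 14 * k - 5 := by
    intro inst
    have e : inst = instDecidableRelProdFinXAdjG k := Subsingleton.elim _ _
    rw [e]; exact h1
  have h5 : ∀ (H : SimpleGraph (Fin k × X)) (_ : H = F k) (inst : DecidableRel H.Adj),
      @SimpleGraph.minDegree _ H _ inst = 4 := by
    rintro H rfl inst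
    have e : inst = instDecidableRelProdFinXAdjF k := Subsingleton.elim _ _
    rw [e]; exact h2
  rw [h4, h5 _ h3]
  omega

/-- A set of points meeting all blocks has at least three elements. -/
theorem three_points : ∀ A : Finset (Fin 7), (∀ q, ∃ p ∈ A, inc p q) → 3 ≤ A.card := by
  decide +kernel

/-- A set of blocks meeting all points has at least three elements. -/
theorem three_blocks : ∀ A : Finset (Fin 7), (∀ p, ∃ q ∈ A, inc p q) → 3 ≤ A.card := by
  decide +kernel

theorem hit_points (q : Fin 7) : inc 0 q ∨ inc 1 q ∨ inc 2 q := by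
  revert q; decide

theorem hit_blocks (p : Fin 7) : inc p 0 ∨ inc p 1 ∨ inc p 2 := by
  revert p; decide

theorem F_lower (k : ℕ) (S : Finset (Fin k × X)) (hS : IsTotalDom (F k) S) : 6 * k ≤ S.card := by
  classical
  have key : ∀ (i : Fin k) (b : Bool),
      3 ≤ (S.filter (fun x => (x.1, x.2.1) = (i, b))).card := by
    intro i b
    have hinj : ((S.filter (fun x => (x.1, x.2.1) = (i, b))).image (fun x => x.2.2)).card
        ≤ (S.filter (fun x => (x.1, x.2.1) = (i, b))).card := Finset.card_image_le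
    refine le_trans ?_ hinj
    cases b
    · apply three_points
      intro q
      obtain ⟨u, hu, h⟩ := hS (i, (true, q))
      obtain ⟨h1, h2⟩ := h
      rcases h2 with ⟨h3, _, _⟩ | ⟨_, h4, h5⟩
      · simp at h3
      · exact ⟨u.2.2, Finset.mem_image.2 ⟨u, Finset.mem_filter.2 ⟨hu, by
          simp only at h1 h4; rw [← h1, h4]⟩, rfl⟩, h5⟩
    · apply three_blocks
      intro p
      obtain ⟨u, hu, h⟩ := hS (i, (false, p))
      obtain ⟨h1, h2⟩ := h
      rcases h2 with ⟨_, h4, h5⟩ | ⟨h3, _, _⟩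
      · exact ⟨u.2.2, Finset.mem_image.2 ⟨u, Finset.mem_filter.2 ⟨hu, by
          simp only at h1 h4; rw [← h1, h4]⟩, rfl⟩, h5⟩
      · simp at h3
  have hcard := Finset.card_eq_sum_card_fiberwise (s := S)
    (f := fun x : Fin k × X => (x.1, x.2.1)) (t := Finset.univ)
    (by intro x _; exact Finset.mem_coe.2 (Finset.mem_univ _))
  rw [hcard]
  calc 6 * k = ∑ _ib : Fin k × Bool, 3 := by
        simp [Fintype.card_prod]; ring
    _ ≤ _ := Finset.sum_le_sum (fun ib _ => key ib.1 ib.2)

theorem F_upper (k : ℕ) : ∃ S : Finset (Fin k × X), IsTotalDom (F k) S ∧ S.card = 6 * k := by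
  classical
  refine ⟨Finset.univ ×ˢ (Finset.univ ×ˢ ({0, 1, 2} : Finset (Fin 7))), ?_, ?_⟩
  · rintro ⟨i, b, x⟩
    cases b
    · rcases hit_blocks x with h | h | h
      · exact ⟨(i, (true, 0)), by simp, rfl, Or.inl ⟨rfl, rfl, h⟩⟩
      · exact ⟨(i, (true, 1)), by simp, rfl, Or.inl ⟨rfl, rfl, h⟩⟩
      · exact ⟨(i, (true, 2)), by simp, rfl, Or.inl ⟨rfl, rfl, h⟩⟩
    · rcases hit_points x with h | h | h
      · exact ⟨(i, (false, 0)), by simp, rfl, Or.inr ⟨rfl, rfl, h⟩⟩
      · exact ⟨(i, (false, 1)), by simp, rfl, Or.inr ⟨rfl, rfl, h⟩⟩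
      · exact ⟨(i, (false, 2)), by simp, rfl, Or.inr ⟨rfl, rfl, h⟩⟩
  · rw [Finset.card_product, Finset.card_product]
    simp
    have : ({0, 1, 2} : Finset (Fin 7)).card = 3 := by decide
    omega

theorem totalDomNum_F (k : ℕ) : totalDomNum (F k) = 6 * k := by
  unfold totalDomNum
  apply le_antisymm
  · exact Nat.sInf_le (F_upper k)
  · obtain ⟨S, hS, hc⟩ := Nat.sInf_mem
      (s := {m | ∃ S : Finset (Fin k × X), IsTotalDom (F k) S ∧ S.card = m}) ⟨_, F_upper k⟩
    rw [← hc]
    exact F_lower k S hS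

theorem G_adj_of_ne {k : ℕ} {a b : Fin k × X} (h : a.1 ≠ b.1) : (G k).Adj a b := by
  unfold G
  rw [SimpleGraph.compl_adj]
  exact ⟨fun e => h (by rw [e]), fun e => h e.1⟩

theorem totalDomNum_G (k : ℕ) (hk : 2 ≤ k) : totalDomNum (G k) = 2 := by
  classical
  have h01 : (⟨0, by omega⟩ : Fin k) ≠ ⟨1, by omega⟩ := by simp [Fin.ext_iff]
  have hup : ∃ S : Finset (Fin k × X), IsTotalDom (G k) S ∧ S.card = 2 := by
    refine ⟨{(⟨0, by omega⟩, (false, 0)), (⟨1, by omega⟩, (false, 0))}, ?_, ?_⟩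
    · intro v
      by_cases h : v.1 = ⟨0, by omega⟩
      · exact ⟨(⟨1, by omega⟩, (false, 0)), by simp, G_adj_of_ne (by rw [h]; exact h01)⟩
      · exact ⟨(⟨0, by omega⟩, (false, 0)), by simp, G_adj_of_ne h⟩
    · rw [Finset.card_pair]
      intro h
      exact h01 (congrArg Prod.fst h)
  unfold totalDomNum
  apply le_antisymm
  · exact Nat.sInf_le hup
  · obtain ⟨S, hS, hc⟩ := Nat.sInf_mem
      (s := {m | ∃ S : Finset (Fin k × X), IsTotalDom (G k) S ∧ S.card = m}) ⟨_, hup⟩
    rw [← hc]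
    obtain ⟨u, hu, _⟩ := hS (⟨0, by omega⟩, (false, 0))
    obtain ⟨w, hw, hadj⟩ := hS u
    have hne : u ≠ w := hadj.ne
    calc 2 = ({u, w} : Finset (Fin k × X)).card := (Finset.card_pair hne).symm
      _ ≤ S.card := Finset.card_le_card (by
          intro x hx
          simp only [Finset.mem_insert, Finset.mem_singleton] at hx
          rcases hx with rfl | rfl <;> assumption)

theorem G_connected (k : ℕ) (hk : 2 ≤ k) : (G k).Connected := by
  have h01 : (⟨0, by omega⟩ : Fin k) ≠ ⟨1, by omega⟩ := by simp [Fin.ext_iff]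
  have hne : Nonempty (Fin k × X) := ⟨(⟨0, by omega⟩, (false, 0))⟩
  refine ⟨fun a b => ?_⟩
  by_cases h : a.1 = b.1
  · obtain ⟨j, hj⟩ : ∃ j : Fin k, a.1 ≠ j := by
      by_cases h0 : a.1 = ⟨0, by omega⟩
      · exact ⟨⟨1, by omega⟩, by rw [h0]; exact h01⟩
      · exact ⟨⟨0, by omega⟩, h0⟩
    have e1 : (G k).Adj a (j, (false, 0)) := G_adj_of_ne hj
    have e2 : (G k).Adj (j, (false, 0)) b := G_adj_of_ne (by rw [← h]; exact hj.symm)
    exact e1.reachable.trans e2.reachable
  · exact (G_adj_of_ne h).reachable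

/-- For every `k ≥ 2` there is a connected graph `H` of order `n = 14 k` with `δ*(H) = 4`,
`γ_t(H) = 2` and `γ_t(Hᶜ) = 6 k = 3 n / 7`. Hence for infinitely many orders `n` both conjectured
bounds fail. -/
theorem result :
    (∀ k : ℕ, 2 ≤ k → ∃ H : SimpleGraph (Fin k × X),
      Fintype.card (Fin k × X) = 14 * k ∧ H.Connected ∧ deltaStar H = 4 ∧
      totalDomNum H = 2 ∧ totalDomNum Hᶜ = 6 * k) ∧
    (∀ n₀ : ℕ, ∃ (V : Type) (_ : Fintype V) (H : SimpleGraph V),
      n₀ ≤ Fintype.card V ∧ H.Connected ∧ deltaStar H = 4 ∧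
      (2 * Fintype.card V : ℚ) / 5 + 2 < (totalDomNum H : ℚ) + totalDomNum Hᶜ ∧
      (4 * Fintype.card V : ℚ) / 5 < (totalDomNum H : ℚ) * totalDomNum Hᶜ) := by
  have main : ∀ k : ℕ, 2 ≤ k → ∃ H : SimpleGraph (Fin k × X),
      Fintype.card (Fin k × X) = 14 * k ∧ H.Connected ∧ deltaStar H = 4 ∧
      totalDomNum H = 2 ∧ totalDomNum Hᶜ = 6 * k := by
    intro k hk
    refine ⟨G k, ?_, G_connected k hk, deltaStar_G k hk, totalDomNum_G k hk, ?_⟩
    · rw [Fintype.card_prod, Fintype.card_fin, card_X, mul_comm]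
    · have h3 : (G k)ᶜ = F k := by unfold G; exact compl_compl _
      rw [h3, totalDomNum_F]
  refine ⟨main, fun n₀ => ?_⟩
  obtain ⟨H, h1, h2, h3, h4, h5⟩ := main (n₀ + 2) (by omega)
  refine ⟨_, inferInstance, H, ?_, h2, h3, ?_, ?_⟩
  · rw [h1]; omega
  · rw [h1, h4, h5]; push_cast; linarith
  · rw [h1, h4, h5]; push_cast; linarith

end Pool.Agent.Results.MP_4101c8_co.BothBoundsFail
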